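import Mathlib
import Pool.Agent.Results.MP_28c31d_co.GonalityRatio

/-!
# Uniform subdivision and the gonalities of all orders

For every rank `r`, every finite loopless multigraph `G` with at least one vertex and every `k ≥ 1`
the `r`-gonalities satisfy `gon_r(G) + r ≤ 2 gon_r(G^(k))`.  For `r = 1` this is
`gon(G) ≤ 2 gon(G^(k)) - 1`.
-/

set_option autoImplicit false

namespace Pool.Agent.Results.MP_28c31d_co.HigherGonality

open Finset Pool.Agent.Results.MP_28c31d_co.GonalityRatio

section Defs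

variable {V E : Type} [Fintype V] [Fintype E] [DecidableEq V]

/-- `D` has rank at least `r`: for every effective divisor `F` of degree `r` the divisor `D - F` is
equivalent to an effective divisor. -/
def RankGe (G : MultiGraph V E) (r : ℕ) (D : V → ℤ) : Prop :=
  ∀ F : V → ℤ, (∀ w, 0 ≤ F w) → ∑ w, F w = (r : ℤ) →
    ∃ D' : V → ℤ, (∀ w, 0 ≤ D' w) ∧ G.Equiv (fun w => D w - F w) D'

/-- The `r`-gonality of `G`: the minimum degree of an effective divisor of rank at least `r`. -/
noncomputable def gonR (G : MultiGraph V E) (r : ℕ) : ℕ :=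
  sInf {d : ℕ | ∃ D : V → ℤ, (∀ w, 0 ≤ D w) ∧ ∑ w, D w = (d : ℤ) ∧ RankGe G r D}

end Defs

section Basic

variable {V E : Type} [Fintype V] [Fintype E] [DecidableEq V]

omit [Fintype V] in
theorem lap_add (G : MultiGraph V E) (f g : V → ℤ) (v : V) :
    G.lap (fun w => f w + g w) v = G.lap f v + G.lap g v := by
  unfold MultiGraph.lap
  rw [← sum_add_distrib]
  refine sum_congr rfl fun e _ => ?_
  split_ifs <;> ring

omit [Fintype V] in
theorem lap_neg (G : MultiGraph V E) (f : V → ℤ) (v : V) :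
    G.lap (fun w => - f w) v = - G.lap f v := by
  unfold MultiGraph.lap
  rw [← sum_neg_distrib]
  refine sum_congr rfl fun e _ => ?_
  split_ifs <;> ring

/-- The Laplacian has total sum zero. -/
theorem sum_lap (G : MultiGraph V E) (f : V → ℤ) : ∑ v, G.lap f v = 0 := by
  unfold MultiGraph.lap
  rw [sum_comm]
  apply sum_eq_zero
  intro e _
  rw [sum_add_distrib]
  simp only [Finset.sum_ite_eq, Finset.mem_univ, if_true]
  ring

theorem rankGeOne_iff (G : MultiGraph V E) (D : V → ℤ) : RankGe G 1 D ↔ G.RankGeOne D := by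
  constructor
  · intro h v
    refine h (fun w => if w = v then 1 else 0) (fun w => by split_ifs <;> norm_num) ?_
    simp
  · intro h F hF hs
    have hex : ∃ v, F v ≠ 0 := by
      by_contra hcon
      push Not at hcon
      rw [sum_eq_zero fun w _ => hcon w] at hs
      norm_num at hs
    obtain ⟨v, hv⟩ := hex
    have hv1 : 1 ≤ F v := by
      have := hF v
      omega
    have hrest : ∀ w, F w = if w = v then 1 else 0 := by
      have h1 : ∑ w, (F w - if w = v then 1 else 0) = 0 := by
        rw [sum_sub_distrib, hs]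
        simp
      have h2 : ∀ w ∈ (univ : Finset V), 0 ≤ F w - if w = v then 1 else 0 := by
        intro w _
        have := hF w
        split_ifs with hw
        · subst hw; linarith
        · linarith
      intro w
      have h3 := (sum_eq_zero_iff_of_nonneg h2).1 h1 w (mem_univ w)
      linarith
    have := h v
    have e : (fun w => D w - F w) = fun w => D w - if w = v then 1 else 0 := by
      funext w
      rw [hrest w]
    rw [e]
    exact this

theorem gonR_one (G : MultiGraph V E) : gonR G 1 = G.gon := by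
  unfold gonR MultiGraph.gon
  congr 1
  ext d
  simp only [Set.mem_ofPred_eq, rankGeOne_iff]

/-- The rank only depends on the equivalence class. -/
theorem rankGe_congr (G : MultiGraph V E) {r : ℕ} {D D₁ : V → ℤ} (h : RankGe G r D)
    (hD : G.Equiv D D₁) : RankGe G r D₁ := by
  obtain ⟨f, hf⟩ := hD
  intro F hF hs
  obtain ⟨D', hD', g, hg⟩ := h F hF hs
  refine ⟨D', hD', fun v => g v + (- f v), fun v => ?_⟩
  rw [lap_add, lap_neg, hg v]
  show D v - F v - G.lap g v = D₁ v - F v - (G.lap g v + -G.lap f v)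
  rw [hf v]
  ring

theorem degree_congr (G : MultiGraph V E) {D D₁ : V → ℤ} (hD : G.Equiv D D₁) :
    ∑ v, D₁ v = ∑ v, D v := by
  obtain ⟨f, hf⟩ := hD
  simp only [hf, sum_sub_distrib, sum_lap, sub_zero]

end Basic

variable {V E : Type} [Fintype V] [Fintype E] [DecidableEq V] [DecidableEq E]

omit [DecidableEq E] in
theorem push_deg_eq (G : MultiGraph V E) (k : ℕ) (D : V ⊕ (E × Fin (k - 1)) → ℤ) :
    ∑ u, push G k D u = 2 * ∑ w, D w - ∑ u : V, D (Sum.inl u) := by
  have h1 : ∑ w, D w = ∑ u : V, D (Sum.inl u) + ∑ e : E, GonalityRatio.inner k D e := by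
    rw [Fintype.sum_sum_type, Fintype.sum_prod_type]
    rfl
  have h2 : ∑ u, push G k D u = ∑ u : V, D (Sum.inl u) + 2 * ∑ e : E, GonalityRatio.inner k D e := by
    unfold push
    rw [sum_add_distrib, sum_comm]
    congr 1
    rw [mul_sum]
    apply sum_congr rfl
    intro e _
    rw [sum_add_distrib, sum_ite_eq, sum_ite_eq]
    simp
    ring
  rw [h1, h2]
  ring

/-- Moving every interior chip to both ends of its edge does not decrease the rank. -/
theorem push_rank (G : MultiGraph V E) (k : ℕ) (hk : 1 ≤ k) (r : ℕ)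
    (D : V ⊕ (E × Fin (k - 1)) → ℤ) (hD : ∀ w, 0 ≤ D w) (hr : RankGe (G.subdiv k) r D) :
    RankGe G r (push G k D) := by
  intro F hF hFs
  obtain ⟨D', hD', f, hf⟩ := hr (Sum.elim F fun _ => 0)
    (by rintro (u | p) <;> simp [hF]) (by
      rw [Fintype.sum_sum_type]
      simp [hFs])
  refine ⟨fun u => push G k D u - F u - G.lap (fun v => f (Sum.inl v) / (k : ℤ)) u, ?_,
    (fun v => f (Sum.inl v) / (k : ℤ)), fun v => rfl⟩
  have hk0 : (0 : ℤ) < k := by exact_mod_cast hk
  have hfl : ∀ x y c : ℤ, (k : ℤ) * c ≤ x - y → c ≤ x / (k : ℤ) - y / (k : ℤ) := by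
    intro x y c h
    have h1 : (y + k * c) / (k : ℤ) ≤ x / (k : ℤ) := Int.ediv_le_ediv hk0 (by linarith)
    rw [Int.add_mul_ediv_left _ _ hk0.ne'] at h1
    linarith
  -- the slope conditions on each edge
  have hslope : ∀ e : E, ∀ i, i + 1 < k →
      f (G.pt k e (i + 1)) - f (G.pt k e i) - (if h : i < k - 1 then D (Sum.inr (e, ⟨i, h⟩)) else 0) ≤
        f (G.pt k e (i + 2)) - f (G.pt k e (i + 1)) := by
    intro e i hi
    have hi' : i < k - 1 := by omega
    have h1 := hf (Sum.inr (e, ⟨i, hi'⟩))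
    rw [lap_inr] at h1
    have h2 := hD' (Sum.inr (e, ⟨i, hi'⟩))
    simp only [Sum.elim_inr, sub_zero] at h1
    rw [dif_pos hi']
    linarith
  have hsum : ∀ e : E, ∑ i ∈ range (k - 1), (if h : i < k - 1 then D (Sum.inr (e, ⟨i, h⟩)) else 0) =
      GonalityRatio.inner k D e := by
    intro e
    unfold GonalityRatio.inner
    rw [Finset.sum_range]
    apply sum_congr rfl
    intro j _
    simp
  have ha : ∀ e : E, ∀ i, 0 ≤ (if h : i < k - 1 then D (Sum.inr (e, ⟨i, h⟩)) else 0) := by
    intro e i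
    split_ifs
    · exact hD _
    · exact le_rfl
  have hpt0 : ∀ e, G.pt k e 0 = Sum.inl (G.src e) := by
    intro e; unfold MultiGraph.pt; simp
  have hptk : ∀ e, G.pt k e k = Sum.inl (G.tgt e) := by
    intro e; unfold MultiGraph.pt
    rw [if_neg (by omega), dif_neg (by omega)]
  have hsrc : ∀ e : E, f (G.pt k e 1) - f (G.pt k e 0) - GonalityRatio.inner k D e ≤
      f (Sum.inl (G.tgt e)) / (k : ℤ) - f (Sum.inl (G.src e)) / (k : ℤ) := by
    intro e
    have := slope k (fun i => f (G.pt k e i)) _ (ha e) (hslope e) hk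
    rw [hsum] at this
    apply hfl
    simp only [hptk] at this
    rw [← hpt0]
    exact this
  have htgt : ∀ e : E, f (G.pt k e (k - 1)) - f (G.pt k e k) - GonalityRatio.inner k D e ≤
      f (Sum.inl (G.src e)) / (k : ℤ) - f (Sum.inl (G.tgt e)) / (k : ℤ) := by
    intro e
    have := slope' k (fun i => f (G.pt k e i)) _ (ha e) (hslope e) hk
    rw [hsum] at this
    apply hfl
    simp only [hpt0] at this
    rw [← hptk]
    exact this
  intro u
  have h1 := hf (Sum.inl u)
  rw [lap_inl G k hk] at h1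
  have h2 := hD' (Sum.inl u)
  have hcomp : ∑ e : E, ((if G.src e = u then f (G.pt k e 1) - f (G.pt k e 0) else 0) +
      (if G.tgt e = u then f (G.pt k e (k - 1)) - f (G.pt k e k) else 0)) ≤
      ∑ e : E, ((if G.src e = u then GonalityRatio.inner k D e else 0) + (if G.tgt e = u then GonalityRatio.inner k D e else 0))
        - G.lap (fun v => f (Sum.inl v) / (k : ℤ)) u := by
    unfold MultiGraph.lap
    rw [← sum_sub_distrib]
    apply sum_le_sum
    intro e _
    have a1 := hsrc e
    have a2 := htgt e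
    by_cases c1 : G.src e = u
    · by_cases c2 : G.tgt e = u
      · exact absurd (c1.trans c2.symm) (G.ne e)
      · simp only [c1, c2, ↓reduceIte, add_zero]
        rw [c1] at a1
        linarith
    · by_cases c2 : G.tgt e = u
      · simp only [c1, c2, ↓reduceIte, zero_add]
        rw [c2] at a2
        linarith
      · simp [c1, c2]
  have hneg : ∑ e : E, ((if G.src e = u then f (G.pt k e 1) - f (G.pt k e 0) else 0) +
      (if G.tgt e = u then f (G.pt k e (k - 1)) - f (G.pt k e k) else 0)) =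
      - ∑ e : E, ((if G.src e = u then f (G.pt k e 0) - f (G.pt k e 1) else 0) +
        (if G.tgt e = u then f (G.pt k e k) - f (G.pt k e (k - 1)) else 0)) := by
    rw [← sum_neg_distrib]
    apply sum_congr rfl
    intro e _
    split_ifs <;> ring
  simp only [Sum.elim_inl] at h1
  unfold push
  simp only
  rw [hneg] at hcomp
  linarith

/-- There are effective divisors of rank at least `r`. -/
theorem nonempty {V' E' : Type} [Fintype V'] [Fintype E'] [DecidableEq V'] (G : MultiGraph V' E')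
    (r : ℕ) : {d : ℕ | ∃ D : V' → ℤ, (∀ w, 0 ≤ D w) ∧ ∑ w, D w = (d : ℤ) ∧
      RankGe G r D}.Nonempty := by
  refine ⟨Fintype.card V' * r, fun _ => r, fun _ => by positivity, by simp, ?_⟩
  intro F hF hs
  refine ⟨fun w => r - F w, fun w => ?_, fun _ => 0, fun w => by simp [MultiGraph.lap]⟩
  have : F w ≤ ∑ w, F w := single_le_sum (fun w _ => hF w) (mem_univ w)
  rw [hs] at this
  linarith

theorem main [Nonempty V] (G : MultiGraph V E) (k : ℕ) (hk : 1 ≤ k) (r : ℕ) :
    gonR G r + r ≤ 2 * gonR (G.subdiv k) r := by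
  obtain ⟨D, hD, hdeg, hr⟩ := Nat.sInf_mem (nonempty (G.subdiv k) r)
  obtain ⟨v₀⟩ := (inferInstance : Nonempty V)
  set F₀ : V ⊕ (E × Fin (k - 1)) → ℤ := fun w => if w = Sum.inl v₀ then (r : ℤ) else 0 with hF₀
  have hF₀0 : ∀ w, 0 ≤ F₀ w := fun w => by
    simp only [hF₀]
    split_ifs <;> positivity
  obtain ⟨D', hD', g, hg⟩ := hr F₀ hF₀0 (by simp [hF₀])
  set D₁ : V ⊕ (E × Fin (k - 1)) → ℤ := fun w => D' w + F₀ w with hD₁
  have hD₁0 : ∀ w, 0 ≤ D₁ w := fun w => add_nonneg (hD' w) (hF₀0 w)
  have hequiv : (G.subdiv k).Equiv D D₁ := ⟨g, fun w => by simp only [hD₁, hg w]; ring⟩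
  have hr₁ : RankGe (G.subdiv k) r D₁ := rankGe_congr _ hr hequiv
  have hdeg₁ : ∑ w, D₁ w = ((gonR (G.subdiv k) r : ℕ) : ℤ) := by
    rw [degree_congr _ hequiv, hdeg]
    rfl
  have hv : (r : ℤ) ≤ ∑ u : V, D₁ (Sum.inl u) := by
    have h1 : D₁ (Sum.inl v₀) ≤ ∑ u : V, D₁ (Sum.inl u) :=
      single_le_sum (f := fun u => D₁ (Sum.inl u)) (fun u _ => hD₁0 _) (mem_univ v₀)
    have h2 : (r : ℤ) ≤ D₁ (Sum.inl v₀) := by
      simp only [hD₁, hF₀, if_true]
      have := hD' (Sum.inl v₀)
      linarith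
    exact h2.trans h1
  have hpush := push_deg_eq G k D₁
  have hp0 : ∀ u, 0 ≤ push G k D₁ u := fun u => push_nonneg G k D₁ hD₁0 u
  obtain ⟨d, hd⟩ := Int.eq_ofNat_of_zero_le (sum_nonneg (fun u (_ : u ∈ (univ : Finset V)) => hp0 u))
  have h1 : gonR G r ≤ d := Nat.sInf_le ⟨push G k D₁, hp0, hd, push_rank G k hk r D₁ hD₁0 hr₁⟩
  rw [hd, hdeg₁] at hpush
  have h2 : (d : ℤ) + r ≤ 2 * ((gonR (G.subdiv k) r : ℕ) : ℤ) := by linarith
  have h3 : d + r ≤ 2 * gonR (G.subdiv k) r := by exact_mod_cast h2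
  omega

/-- **Uniform subdivision and the gonalities of all orders.**  Let `G` be a finite loopless
multigraph and `k ≥ 1`.

1. `gon(G) ≤ 2 gon(G^(k)) - 1` (if `G` has a vertex), so the answer to Q1 is positive with `C = 2`,
for every `G`.
2. `gon_r(G) ≤ 2 gon_r(G^(k)) - r` for every rank `r ≥ 0`; for `r = 1` this is the first part,
because `gon_1 = gon`.
3. For every effective divisor `D` of `G^(k)`, of rank at least `r`, the divisor `push D` of `G`
(every chip in the interior of an edge is replaced by one chip at each of the two ends) has rank at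
least `r` and degree at most `2 deg D`. -/
theorem result (V E : Type) [Fintype V] [Fintype E] [DecidableEq V] [DecidableEq E]
    (G : MultiGraph V E) (k : ℕ) (hk : 1 ≤ k) :
    G.gon ≤ 2 * (G.subdiv k).gon ∧
    (Nonempty V → G.gon + 1 ≤ 2 * (G.subdiv k).gon) ∧
    (Nonempty V → ∀ r : ℕ, gonR G r + r ≤ 2 * gonR (G.subdiv k) r) ∧
    gonR G 1 = G.gon ∧
    (∀ (r : ℕ) (D : V ⊕ (E × Fin (k - 1)) → ℤ), (∀ w, 0 ≤ D w) → RankGe (G.subdiv k) r D →
      (∀ u, 0 ≤ push G k D u) ∧ RankGe G r (push G k D) ∧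
        ∑ u, push G k D u = 2 * ∑ w, D w - ∑ u : V, D (Sum.inl u)) := by
  refine ⟨Pool.Agent.Results.MP_28c31d_co.GonalityRatio.result V E G k hk, fun _ => ?_,
    fun _ r => main G k hk r, gonR_one G, fun r D hD hr =>
      ⟨fun u => push_nonneg G k D hD u, push_rank G k hk r D hD hr, push_deg_eq G k D⟩⟩
  have h := main G k hk 1
  rwa [gonR_one, gonR_one] at h

end Pool.Agent.Results.MP_28c31d_co.HigherGonality
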